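import Pool.Agent.Lib.GP.FinO
import Pool.Agent.Lib.GP.FinL

/-!
# MP_6342b0_nt (Gross-Prasad for special orthogonal groups): almost all forms have many partners (helper25, team)

`V_(n+1) = ℚ^N`, `N = n + 1 ≥ 3`, with the positive definite matrix `Q`, `V_n` the complement of `e`, `G = SO(V_(n+1))`, `H = SO(V_n)`, `K ⊂ G(AQ)` open and compact.
-/

set_option autoImplicit false

open Matrix Pool.Agent.GP

namespace Pool.Agent.Results.MP_6342b0_nt.AlmostAllFormsHavePartners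

/-- There are `p0`, `X0`, `C` such that for all irreducible representations `ρ` of `G(ℝ)` of dimension `n` and `σ` of `H(ℝ)` of dimension `m` with `Hom_H(ℝ)(ρ ⊗ σ, ℂ) ≠ 0` and all `X ≥ X0`:
a system of pairwise orthogonal automorphic forms `ψ_i ≠ 0` on `H` of weight `σ` and level `K ∩ H(AQ)` without `√X` partners of weight `ρ` and level `K` has at most `2 m ⌊C X^(12N²+2N+8) m (m/n)^(1/(2N+4))⌋` members. -/
theorem result (N : ℕ) (hN : 3 ≤ N) (Q : Matrix (Fin N) (Fin N) ℚ) (hQ : Q.IsSymm)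
    (hpos : ∀ x : Fin N → ℝ, x ≠ 0 → 0 < x ⬝ᵥ (Q.map (algebraMap ℚ ℝ) *ᵥ x)) (e : Fin N → ℚ) (he : e ≠ 0)
    (K : Subgroup (SO Q AQ)) (hK : CO K) :
    ∃ (p0 X0 : ℕ) (C : ℝ), 0 < C ∧ ∀ (n m : ℕ) (ρ : MRep (SO Q ℝ) n) (σ : MRep (HH Q e ℝ) m),
      Pairing ρ σ (iH Q e ℝ) → Lev K e ρ → ∀ X : ℕ, X0 ≤ X → ∀ (s : ℕ) (ψ : Fin s → HH Q e ℝ → HH Q e AQ → ℂ),
        (∀ i, AutH K σ (ψ i) ∧ ψ i ≠ 0 ∧ ¬ Partners K ρ p0 (ψ i) √X) → (∀ i j, i ≠ j → Ort K (ψ i) (ψ j)) →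
          (s : ℝ) ≤ 2 * m * ⌊C * X ^ (12 * N ^ 2 + 2 * N + 8) * (m * ((m : ℝ) / n) ^ (1 / (2 * N + 4 : ℝ)))⌋₊ :=
  gpOLight gpO N Q e K hN ⟨hQ, hpos⟩ he hK

end Pool.Agent.Results.MP_6342b0_nt.AlmostAllFormsHavePartners
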