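import Pool.Agent.Lib.GP.FinT

/-!
# MP_6342b0_nt (Gross-Prasad for special orthogonal groups): partners in the level aspect, uniformly in the weights (helper25, team)

`V_(n+1) = ℚ^N`, `N = n + 1 ≥ 3`, with the positive definite integral matrix `S`, `V_n` the complement of the integral vector `v`, `G = SO(V_(n+1))`, `H = SO(V_n)`.
-/

set_option autoImplicit false

open Matrix Pool.Agent.GP

namespace Pool.Agent.Results.MP_6342b0_nt.PartnersInLevelAspect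

/-- Let `K ⊂ G(Ẑ)` be open and compact with `k v ≡ v mod M` for `k ∈ K`. Let `ρ` and `σ` be irreducible representations of `G(ℝ)` and `H(ℝ)` with `Hom_H(ℝ)(ρ ⊗ σ, ℂ) ≠ 0`. Every automorphic form `ψ ≠ 0` on `H` of weight `σ` and level `K ∩ H(AQ)` has `r` partners of weight `ρ` and level `K`, `r` the number of the primes `p` which do not divide `2 M det S ⟨v, v⟩` with `G(ℤ_p) ⊂ K` and `4 ⟨v, v⟩ p² < M²`. -/
theorem result (N : ℕ) (hN : 3 ≤ N) (S : Matrix (Fin N) (Fin N) ℤ) (hS : S.IsSymm)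
    (hpos : ∀ x : Fin N → ℝ, x ≠ 0 → 0 < x ⬝ᵥ (S.map (Int.cast : ℤ → ℝ) *ᵥ x)) (v : Fin N → ℤ) (hv : v ≠ 0)
    (K : Subgroup (SO (qS S) AQ)) (hK : CO K) (hKi : ∀ k ∈ K, ∀ i j, Itg (mat k i j)) (M : ℕ) (hM : 0 < M)
    (hKv : ∀ k ∈ K, ∀ i, ∃ z, Itg z ∧ (mat k *ᵥ ve (qv v) AQ) i = ve (qv v) AQ i + (M : AQ) * z) (n m : ℕ)
    (ρ : MRep (SO (qS S) ℝ) n) (σ : MRep (HH (qS S) (qv v) ℝ) m) (hP : Pairing ρ σ (iH (qS S) (qv v) ℝ))
    (ψ : HH (qS S) (qv v) ℝ → HH (qS S) (qv v) AQ → ℂ) (hψ : AutH K σ ψ) (hne : ψ ≠ 0) :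
    PartG K ρ {p | GdP S v M K p} ψ
      {p : Nat.Primes | GdP S v M K p ∧ 4 * (v ⬝ᵥ (S *ᵥ v)) * ((p : ℕ) : ℤ) ^ 2 < (M : ℤ) ^ 2}.ncard :=
  gpVLight gpV hN S hS hpos v hv K hK hKi M hM hKv n m ρ σ hP ψ hψ hne

end Pool.Agent.Results.MP_6342b0_nt.PartnersInLevelAspect
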