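import Pool.Agent.Lib.GP.FinS

/-!
# MP_6342b0_nt (Gross-Prasad for special orthogonal groups): the exact first moment of the periods in the stable range (helper25, team)

`V_(n+1) = ℚ^N`, `N = n + 1`, with the positive definite matrix `Q`, `V_n` the complement of `e`, `G = SO(V_(n+1))`, `H = SO(V_n)`, `K ⊂ G(AQ)` open and compact, `Y ⊂ G(AQ)` compact with `K Y K ⊂ Y`.
-/

set_option autoImplicit false

open Matrix Pool.Agent.GP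

namespace Pool.Agent.Results.MP_6342b0_nt.StableFirstMoment

/-- Suppose that `⟨e, e⟩` is the only rational number `t` with `|t| ≤ ⟨e, e⟩` which is a value `⟨e, y e⟩`, `y ∈ Y`. Then for all irreducible representations `ρ` of `G(ℝ)` of dimension `n` and `σ` of `H(ℝ)` of dimension `m` with `dim Hom_H(ℝ)(ρ ⊗ σ, ℂ) = 1`, every orthonormal basis `φ_j` of the automorphic forms on `G` of weight `ρ` and level `K`, and all automorphic forms `ψ`, `ψ'` on `H` of weight `σ` and level `K ∩ H(AQ)`: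
`∑_j P(T φ_j, ψ) conj P(φ_j, ψ') = (n/m) ⟨T_H ψ', ψ⟩`, `T` and `T_H` the Hecke operators of `Y` and of `Y ∩ H(AQ)`. -/
theorem result (N : ℕ) (Q : Matrix (Fin N) (Fin N) ℚ) (hQ : Q.IsSymm)
    (hpos : ∀ x : Fin N → ℝ, x ≠ 0 → 0 < x ⬝ᵥ (Q.map (algebraMap ℚ ℝ) *ᵥ x)) (e : Fin N → ℚ)
    (K : Subgroup (SO Q AQ)) (hK : CO K) (Y : Set (SO Q AQ)) (hY : IsCompact Y)
    (hKY : ∀ y ∈ Y, ∀ k ∈ K, y * k ∈ Y ∧ k * y ∈ Y)
    (hYe : ∀ t : ℚ, |t| ≤ e ⬝ᵥ (Q *ᵥ e) → ∀ y ∈ Y, mc e y = algebraMap ℚ AQ t → t = e ⬝ᵥ (Q *ᵥ e)) (n m : ℕ)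
    (ρ : MRep (SO Q ℝ) n) (σ : MRep (HH Q e ℝ) m) (hP : Pairing1 ρ σ (iH Q e ℝ)) (r : ℕ)
    (φ : Fin r → SO Q ℝ → SO Q AQ → ℂ) (hφ : ONB K ρ φ) (ψ ψ' : HH Q e ℝ → HH Q e AQ → ℂ) (hψ : AutH K σ ψ)
    (hψ' : AutH K σ ψ') :
    ∑ j, Pd K (HO K Y (φ j)) ψ * star (Pd K (φ j) ψ') =
      ((n : ℂ) / m) * Ip (qH Q e AQ) (lH K e) (HO (lH K e) (rY e Y) ψ') ψ :=
  gpSLight gpS N Q e K ⟨hQ, hpos⟩ hK Y hY hKY (valLight N Q e ⟨hQ, hpos⟩ Y hYe) n m ρ σ hP r φ hφ ψ ψ' hψ hψ'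

end Pool.Agent.Results.MP_6342b0_nt.StableFirstMoment
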