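import Pool.Agent.Lib.GP.FinM
import Pool.Agent.Lib.GP.FinP

/-!
# MP_6342b0_nt (Gross-Prasad for special orthogonal groups): the first moment of the periods, twisted by Hecke operators (helper25, team)

`V_(n+1) = ℚ^N`, `N = n + 1 ≥ 3`, with the positive definite matrix `Q`, `V_n` the complement of `e`, `G = SO(V_(n+1))`, `H = SO(V_n)`, `K ⊂ G(AQ)` open and compact, `Y ⊂ G(AQ)` compact with `K Y K ⊂ Y`.
-/

set_option autoImplicit false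

open Matrix Pool.Agent.GP

namespace Pool.Agent.Results.MP_6342b0_nt.TwistedFirstMoment

/-- There is `C` such that for all irreducible representations `ρ` of `G(ℝ)` of dimension `n` and `σ` of `H(ℝ)` of dimension `m` with `dim Hom_H(ℝ)(ρ ⊗ σ, ℂ) = 1`, every orthonormal basis `φ_j` of the automorphic forms on `G` of weight `ρ` and level `K`, and all orthonormal automorphic forms `ψ_i`, `i < s`, on `H` of weight `σ` and level `K ∩ H(AQ)`: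
`∑_i |∑_j P(T φ_j, ψ_i) conj P(φ_j, ψ_i) - (n/m) ⟨T_H ψ_i, ψ_i⟩|² ≤ C (n/m)² min(s, m) m (m/n)^(1/(2N+4))`, `T` and `T_H` the Hecke operators of `Y` and of `Y ∩ H(AQ)`. -/
theorem result (N : ℕ) (hN : 3 ≤ N) (Q : Matrix (Fin N) (Fin N) ℚ) (hQ : Q.IsSymm)
    (hpos : ∀ x : Fin N → ℝ, x ≠ 0 → 0 < x ⬝ᵥ (Q.map (algebraMap ℚ ℝ) *ᵥ x)) (e : Fin N → ℚ) (he : e ≠ 0)
    (K : Subgroup (SO Q AQ)) (hK : CO K) (Y : Set (SO Q AQ)) (hY : IsCompact Y)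
    (hKY : ∀ y ∈ Y, ∀ k ∈ K, y * k ∈ Y ∧ k * y ∈ Y) (hYe : ∀ y ∈ Y, mat y *ᵥ ve e AQ ≠ -ve e AQ) :
    ∃ C : ℝ, 0 < C ∧ ∀ (n m : ℕ) (ρ : MRep (SO Q ℝ) n) (σ : MRep (HH Q e ℝ) m), Pairing1 ρ σ (iH Q e ℝ) →
      ∀ (r : ℕ) (φ : Fin r → SO Q ℝ → SO Q AQ → ℂ), ONB K ρ φ →
        ∀ (s : ℕ) (ψ : Fin s → HH Q e ℝ → HH Q e AQ → ℂ), (∀ i, AutH K σ (ψ i)) →
          (∀ i j, Ip (qH Q e AQ) (lH K e) (ψ i) (ψ j) = if i = j then 1 else 0) →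
          ∑ i, ‖∑ j, Pd K (HO K Y (φ j)) (ψ i) * star (Pd K (φ j) (ψ i)) -
              ((n : ℂ) / m) * Ip (qH Q e AQ) (lH K e) (HO (lH K e) (rY e Y) (ψ i)) (ψ i)‖ ^ 2 ≤
            C * ((n : ℝ) / m) ^ 2 * ((min s m : ℕ) * (m * ((m : ℝ) / n) ^ (1 / (2 * N + 4 : ℝ)))) :=
  gpMLight gpM N Q e K hN ⟨hQ, hpos⟩ he hK Y hY hKY hYe

end Pool.Agent.Results.MP_6342b0_nt.TwistedFirstMoment
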